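import Pool.Graph.R_pool_sql_team_seeded_2aa45f1a.Q1.SL.Los
import Pool.Agent.H436.DT.Vel

/-!
Elements of bounded complexity over a subfield of a differential field.
-/

set_option autoImplicit false

namespace Pool.Agent.H436.UC

open Filter MvPolynomial Pool.Agent.Q1.SL
open Pool.Agent.H436.DT (DField)

/-- The elements of complexity at most `k` over `B`. -/
def Cx {E : Type} [Field E] [Algebra ℂ E] {g : ℕ} (D : Fin g → Derivation ℂ E E) (B : Set E) :
    ℕ → Set E
  | 0 => B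
  | k + 1 => {x | x ∈ Cx D B k ∨ (∃ a ∈ Cx D B k, ∃ b ∈ Cx D B k, x = a + b) ∨
      (∃ a ∈ Cx D B k, ∃ b ∈ Cx D B k, x = a * b) ∨
      ∃ (A : Fin g → Fin (k + 1) → Fin (k + 1) → E) (y : Fin (k + 1) → E),
        (∀ i j l, A i j l ∈ Cx D B k) ∧ (∀ i j, D i (y j) = ∑ l, A i j l * y l) ∧ ∃ j, x = y j}

/-- `y` is a root of a nonzero polynomial of degree at most `M` with coefficients in `B`. -/
def AlgLe {E : Type} [Field E] (B : Set E) (M : ℕ) (y : E) : Prop :=
  ∃ P : Polynomial E, P ≠ 0 ∧ P.natDegree ≤ M ∧ (∀ i, P.coeff i ∈ B) ∧ P.eval y = 0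

end Pool.Agent.H436.UC
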