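import Pool.Agent.H436.UC.Main

/-!
The elements given by iterated linear differential equations have finite complexity.
-/

set_option autoImplicit false

namespace Pool.Agent.H436.UC

open Pool.Agent.H436.DT (DField IterL)

theorem cx_mono {E : Type} [Field E] [Algebra ℂ E] {g : ℕ} {D : Fin g → Derivation ℂ E E}
    {B : Set E} {k k' : ℕ} (h : k ≤ k') : Cx D B k ⊆ Cx D B k' := by
  induction h with
  | refl => exact fun x hx => hx
  | step _ ih => exact fun x hx => Or.inl (ih hx)

theorem cx_of_iterL {E : Type} [Field E] [Algebra ℂ E] {g : ℕ} {D : Fin g → Derivation ℂ E E}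
    {B : IntermediateField ℂ E} {x : E} (h : IterL D B x) : ∃ k, x ∈ Cx D (B : Set E) k := by
  classical
  induction h with
  | base hb => exact ⟨0, hb⟩
  | add _ _ ih1 ih2 =>
    obtain ⟨k1, h1⟩ := ih1
    obtain ⟨k2, h2⟩ := ih2
    exact ⟨max k1 k2 + 1, Or.inr (Or.inl ⟨_, cx_mono (le_max_left _ _) h1, _,
      cx_mono (le_max_right _ _) h2, rfl⟩)⟩
  | mul _ _ ih1 ih2 =>
    obtain ⟨k1, h1⟩ := ih1
    obtain ⟨k2, h2⟩ := ih2
    exact ⟨max k1 k2 + 1, Or.inr (Or.inr (Or.inl ⟨_, cx_mono (le_max_left _ _) h1, _,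
      cx_mono (le_max_right _ _) h2, rfl⟩))⟩
  | @ode m A y _ hy j ih =>
    choose κ hκ using ih
    let K : ℕ := max m (Finset.univ.sup fun p : Fin g × Fin m × Fin m => κ p.1 p.2.1 p.2.2)
    have hmK : m ≤ K + 1 := (le_max_left _ _).trans (Nat.le_succ _)
    have hAK : ∀ i a b, A i a b ∈ Cx D (B : Set E) K := fun i a b =>
      cx_mono ((Finset.le_sup (f := fun p : Fin g × Fin m × Fin m => κ p.1 p.2.1 p.2.2)
        (Finset.mem_univ (i, a, b))).trans (le_max_right _ _)) (hκ i a b)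
    have h0 : (0 : E) ∈ Cx D (B : Set E) K := cx_mono (Nat.zero_le _) B.zero_mem
    let A' : Fin g → Fin (K + 1) → Fin (K + 1) → E := fun i a b =>
      if h : (a : ℕ) < m ∧ (b : ℕ) < m then A i ⟨a, h.1⟩ ⟨b, h.2⟩ else 0
    let y' : Fin (K + 1) → E := fun a => if h : (a : ℕ) < m then y ⟨a, h⟩ else 0
    refine ⟨K + 1, Or.inr (Or.inr (Or.inr ⟨A', y', ?_, ?_, ⟨j, j.2.trans_le hmK⟩, ?_⟩))⟩
    · intro i a b
      change (if h : (a : ℕ) < m ∧ (b : ℕ) < m then A i ⟨a, h.1⟩ ⟨b, h.2⟩ else 0) ∈ _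
      split_ifs
      · exact hAK _ _ _
      · exact h0
    · intro i a
      by_cases ha : (a : ℕ) < m
      · have h1 : y' a = y ⟨a, ha⟩ := dif_pos ha
        rw [h1, hy i]
        have h2 : ∑ b : Fin (K + 1), A' i a b * y' b =
            ∑ b ∈ Finset.univ.map (Fin.castLEEmb hmK), A' i a b * y' b := by
          symm
          refine Finset.sum_subset (Finset.subset_univ _) fun b _ hb => ?_
          have h3 : ¬ (b : ℕ) < m := by
            intro h4
            apply hb
            rw [Finset.mem_map]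
            exact ⟨⟨b, h4⟩, Finset.mem_univ _, Fin.ext rfl⟩
          have h4 : y' b = 0 := dif_neg h3
          rw [h4, mul_zero]
        rw [h2, Finset.sum_map]
        refine Finset.sum_congr rfl fun b _ => ?_
        have h3 : A' i a (Fin.castLEEmb hmK b) = A i ⟨a, ha⟩ b := dif_pos ⟨ha, b.2⟩
        have h4 : y' (Fin.castLEEmb hmK b) = y b := dif_pos b.2
        rw [h3, h4]
      · have h1 : y' a = 0 := dif_neg ha
        rw [h1, map_zero]
        symm
        refine Finset.sum_eq_zero fun b _ => ?_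
        have h2 : A' i a b = 0 := dif_neg fun h => ha h.1
        rw [h2, zero_mul]
    · have h1 : y' ⟨j, j.2.trans_le hmK⟩ = y j := dif_pos j.2
      exact h1.symm

theorem iterL_iff {E : Type} [Field E] [Algebra ℂ E] {g : ℕ} {D : Fin g → Derivation ℂ E E}
    {B : IntermediateField ℂ E} {x : E} : IterL D B x ↔ ∃ k, x ∈ Cx D (B : Set E) k :=
  ⟨cx_of_iterL, fun ⟨k, hk⟩ => iterL_of_cx k x hk⟩

end Pool.Agent.H436.UC
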