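import Pool.Agent.H436.UC.Main
import Pool.Agent.H436.SC.Main

/-!
General hypersurfaces and points over differential fields of bounded complexity.
-/

set_option autoImplicit false

namespace Pool.Agent.H436.UC

open Filter MvPolynomial Pool.Agent.Q1.SL
open Pool.Agent.H436.DT (DField IterL)
open Pool.Agent.Q171.RC (NoRationalCurve NoRatLe general_open noRatLe_of)
open Pool.Agent.H436.SC

/-- General hypersurfaces. -/
theorem general (n d g k : ℕ) :
    ∃ (M : ℕ) (Ps : Set (MvPolynomial ((Fin (n + 2)) →₀ ℕ) ℚ)),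
    (2 * n + 2 ≤ d → ∃ P ∈ Ps, ∃ F₀ : MvPolynomial (Fin (n + 2)) ℂ, F₀.IsHomogeneous d ∧
      aeval (fun m => F₀.coeff m) P ≠ 0) ∧
    (∀ F : MvPolynomial (Fin (n + 2)) ℂ, F.IsHomogeneous d → NoRationalCurve F →
      ∃ P ∈ Ps, aeval (fun m => F.coeff m) P ≠ 0) ∧
    ∀ F : MvPolynomial (Fin (n + 2)) ℂ, F.IsHomogeneous d →
      (∃ P ∈ Ps, aeval (fun m => F.coeff m) P ≠ 0) →
      ∀ (E : Type) [Field E] [Algebra ℂ E] (D : Fin g → Derivation ℂ E E)
        (B : IntermediateField ℂ E), DField D B →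
        ∀ x : Fin (n + 2) → E, (∀ j, x j ∈ Cx D (B : Set E) k) → aeval x F = 0 →
          ∀ u v, AlgLe (B : Set E) M (x u / x v) := by
  obtain ⟨M, hM⟩ := uniform (n + 1) d g k
  obtain ⟨Ps, h1, h2⟩ := general_open n d M
  refine ⟨M, Ps, h1, fun F hF hno => (h2 F hF).2 (noRatLe_of hno M), ?_⟩
  intro F hF hP E _ _ D B hB x hx hxF
  have h3 := (h2 F hF).1 hP
  refine (hM {F} 1 (fun F' hF' => ⟨d, le_rfl, by
    rw [Set.mem_singleton_iff.1 hF']
    exact hF⟩) ⟨0, Nat.zero_le _, isHomogeneous_one _ _⟩ (fun p hp1 hp2 hp3 => ?_) E D B hB x hx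
    (fun F' hF' => by
      rw [Set.mem_singleton_iff.1 hF']
      exact hxF)).resolve_left (by
    rw [map_one]
    exact one_ne_zero)
  exfalso
  obtain ⟨F', hF', hne⟩ := h3 p hp3 hp1
  exact hne (hp2 F' hF')

theorem alg_of_algLe {E : Type} [Field E] [Algebra ℂ E] {B : IntermediateField ℂ E} {M : ℕ} {y : E}
    (h : AlgLe (B : Set E) M y) : IsAlgebraic B y := by
  obtain ⟨P, hP0, -, hPB, hPy⟩ := h
  obtain ⟨Q, hQ⟩ : ∃ Q : Polynomial B, Q.map (algebraMap B E) = P := by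
    have h1 : P ∈ Polynomial.lifts (algebraMap B E) := by
      rw [Polynomial.lifts_iff_coeff_lifts]
      exact fun i => ⟨⟨P.coeff i, hPB i⟩, rfl⟩
    exact (Polynomial.mem_lifts P).1 h1
  refine ⟨Q, fun h0 => hP0 (by rw [← hQ, h0, Polynomial.map_zero]), ?_⟩
  rw [Polynomial.aeval_def, ← Polynomial.eval_map, hQ, hPy]

/-- The entire curve `f` has homogeneous coordinates, in some differential extension field `E` of the
ring of the entire functions, which have complexity at most `k` over the field generated by the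
constants and the functions in `A`. -/
def BuiltLe {n : ℕ} (k : ℕ) (A : Set Ent) (f : Fin (n + 1) → Ent) : Prop :=
  ∃ (E : Type) (_ : Field E) (_ : Algebra ℂ E) (D : Derivation ℂ E E) (ι : Ent →ₐ[ℂ] E),
    Ext E D ι ∧ ∃ l : E, l ≠ 0 ∧
      ∀ j, l * ι (f j) ∈ Cx (fun _ : Fin 1 => D) (base D ι A : Set E) k

/-- The curve `f` has homogeneous coordinates in `A`. -/
def Over {n : ℕ} (A : Set Ent) (f : Fin (n + 1) → Ent) : Prop :=
  ∃ h : Fin (n + 1) → Ent, (∀ j, h j ∈ A) ∧ (∃ j z, (h j).1 z ≠ 0) ∧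
    ∀ i j z, (f i).1 z * (h j).1 z = (f j).1 z * (h i).1 z

theorem over_mk {n : ℕ} {A : Set Ent} {f : Fin (n + 1) → Ent}
    (h : ∃ h : Fin (n + 1) → Ent, (∀ j, h j ∈ A) ∧ (∃ j, h j ≠ 0) ∧ ∀ i j, f i * h j = f j * h i) :
    Over A f := by
  obtain ⟨h, h1, ⟨j, hj⟩, h3⟩ := h
  refine ⟨h, h1, ⟨j, ?_⟩, fun i j z => congrArg (evz z) (h3 i j)⟩
  by_contra hcon
  push Not at hcon
  exact hj (ent_ext hcon)

theorem over_of {n : ℕ} {A : Subalgebra ℂ Ent} {f : Fin (n + 1) → Ent}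
    (h : ∀ v, f v ≠ 0 → ∀ u, ∃ c ∈ A, ∃ b ∈ A, c ≠ 0 ∧ c * f u = b * f v) :
    Over (A : Set Ent) f := by
  classical
  refine over_mk ?_
  by_cases hf0 : ∀ j, f j = 0
  · refine ⟨fun _ => 1, fun _ => one_mem A, ⟨0, one_ne_zero⟩, fun i j => ?_⟩
    rw [hf0 i, hf0 j]
  push Not at hf0
  obtain ⟨v, hv⟩ := hf0
  choose c hcA b hbA hc hcb using h v hv
  let P : Ent := ∏ u, c u
  let g : Fin (n + 1) → Ent := fun u => b u * ∏ x ∈ Finset.univ.erase u, c x
  have hP : P ≠ 0 := Finset.prod_ne_zero_iff.2 fun u _ => hc u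
  have hPg : ∀ u, P * f u = g u * f v := by
    intro u
    have h1 : P = c u * ∏ x ∈ Finset.univ.erase u, c x :=
      (Finset.mul_prod_erase Finset.univ c (Finset.mem_univ u)).symm
    rw [h1]
    calc c u * (∏ x ∈ Finset.univ.erase u, c x) * f u
        = (c u * f u) * ∏ x ∈ Finset.univ.erase u, c x := by ring
      _ = b u * f v * ∏ x ∈ Finset.univ.erase u, c x := by rw [hcb u]
      _ = g u * f v := by
        change _ = b u * (∏ x ∈ Finset.univ.erase u, c x) * f v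
        ring
  refine ⟨g, fun u => mul_mem (hbA u) (prod_mem fun x _ => hcA x), ⟨v, ?_⟩, fun i j => ?_⟩
  · intro h0
    have h1 := hPg v
    rw [h0, zero_mul] at h1
    exact (mul_ne_zero hP hv) h1
  · apply mul_right_cancel₀ hv
    calc f i * g j * f v = f i * (g j * f v) := by ring
      _ = f i * (P * f j) := by rw [hPg]
      _ = (P * f i) * f j := by ring
      _ = g i * f v * f j := by rw [hPg]
      _ = f j * g i * f v := by ring

/-- General hypersurfaces and entire curves. -/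
theorem general_curves (n d k : ℕ) : ∃ (Ps : Set (MvPolynomial ((Fin (n + 2)) →₀ ℕ) ℚ)),
    (2 * n + 2 ≤ d → ∃ P ∈ Ps, ∃ F₀ : MvPolynomial (Fin (n + 2)) ℂ, F₀.IsHomogeneous d ∧
      aeval (fun m => F₀.coeff m) P ≠ 0) ∧
    (∀ F : MvPolynomial (Fin (n + 2)) ℂ, F.IsHomogeneous d → NoRationalCurve F →
      ∃ P ∈ Ps, aeval (fun m => F.coeff m) P ≠ 0) ∧
    ∀ F : MvPolynomial (Fin (n + 2)) ℂ, F.IsHomogeneous d →
      (∃ P ∈ Ps, aeval (fun m => F.coeff m) P ≠ 0) →
      ∀ A : Subalgebra ℂ Ent, Closed A → ∀ f : Fin (n + 2) → Ent, InX {F} f →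
        BuiltLe k (A : Set Ent) f → Over (A : Set Ent) f := by
  obtain ⟨M, Ps, h1, h2, h3⟩ := general n d 1 k
  refine ⟨Ps, h1, h2, ?_⟩
  rintro F hF hP A hA f hfF ⟨E, _, _, D, ι, hE, l, hl, hb⟩
  refine over_of fun v hv u => ratio_mem hA hE.inj hv (SC2.alg_descent D ι hE.inj hE.der A ?_)
  have h4 : aeval (fun j => l * ι (f j)) F = 0 := by
    have h5 : aeval (fun j => ι (f j)) F = ι (aeval f F) :=
      (MvPolynomial.comp_aeval_apply (f := f) ι F).symm
    rw [aeval_smul_vec hF l (fun j => ι (f j)), h5, aeval_eq_zero.2 (hfF F rfl), map_zero, mul_zero]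
  have h6 := alg_of_algLe (h3 F hF hP E (fun _ => D) (base D ι (A : Set Ent)) (dfield hA.der hE)
    (fun j => l * ι (f j)) hb h4 u v)
  rwa [mul_div_mul_left _ _ hl] at h6

end Pool.Agent.H436.UC
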