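import Pool.Agent.H436.UC.Defs

/-!
Ultraproducts of differential fields with subfields.
-/

set_option autoImplicit false

namespace Pool.Agent.H436.UC

open Filter MvPolynomial Pool.Agent.Q1.SL

open Pool.Agent.H436.DT (DField)

/-- T1. Ultraproducts of differential fields with subfields. -/
theorem exists_ultraG {g : ℕ} {E : ℕ → Type} [∀ i, Field (E i)] [∀ i, Algebra ℂ (E i)]
    (D : ∀ i, Fin g → Derivation ℂ (E i) (E i)) (B : ∀ i, IntermediateField ℂ (E i))
    (hB : ∀ i, DField (D i) (B i)) :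
    ∃ (E' : Type) (_ : Field E') (_ : Algebra ℂ E') (D' : Fin g → Derivation ℂ E' E')
      (B' : IntermediateField ℂ E') (π : (∀ i, E i) →+* E') (θ : (ℕ → ℂ) →+* ℂ), DField D' B' ∧
      (∀ l x, D' l (π x) = π fun i => D i l (x i)) ∧
      (∀ x, π x ∈ B' ↔ ∀ᶠ i in (hyperfilter ℕ : Filter ℕ), x i ∈ B i) ∧
      (∀ c : ℕ → ℂ, π (fun i => algebraMap ℂ (E i) (c i)) = algebraMap ℂ E' (θ c)) ∧
      (∀ x, π x = 0 ↔ ∀ᶠ i in (hyperfilter ℕ : Filter ℕ), x i = 0) ∧
      (∀ c : ℕ → ℂ, θ c = 0 ↔ ∀ᶠ i in (hyperfilter ℕ : Filter ℕ), c i = 0) ∧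
      Function.Surjective θ ∧ Function.Surjective π := by
  classical
  obtain ⟨ψ⟩ := exists_psi
  have hD : ∀ (l : Fin g) (y : UP E), ∃ y' : UP E, ∀ x, uMk E x = y →
      uMk E (fun i => D i l (x i)) = y' := by
    intro l y
    obtain ⟨x, rfl⟩ := uMk_surj y
    refine ⟨uMk E fun i => D i l (x i), fun x' hx' => ?_⟩
    rw [uMk_eq] at hx' ⊢
    filter_upwards [hx'] with i hi
    rw [hi]
  choose d hd using hD
  have hd' : ∀ l x, d l (uMk E x) = uMk E fun i => D i l (x i) := fun l x => (hd l _ x rfl).symm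
  let iA : Algebra ℂ (UP E) := ((uMap E).comp (ψ.symm : ℂ →+* UC)).toAlgebra
  have hal : ∀ c : ℕ → ℂ, uMk E (fun i => algebraMap ℂ (E i) (c i)) =
      algebraMap ℂ (UP E) (ψ (uMk _ c)) := by
    intro c
    change _ = uMap E (ψ.symm (ψ (uMk _ c)))
    rw [ψ.symm_apply_apply, uMap_mk]
  have hsurj : ∀ a : ℂ, ∃ c : ℕ → ℂ, ψ (uMk _ c) = a := by
    intro a
    obtain ⟨c, hc⟩ := uMk_surj (ψ.symm a)
    exact ⟨c, by rw [hc, ψ.apply_symm_apply]⟩
  have hder : ∀ l : Fin g, ∃ D' : Derivation ℂ (UP E) (UP E), ∀ x, D' x = d l x := by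
    intro l
    exact der_of (uMk E) uMk_surj (d l) (fun x i => D i l (x i)) (hd' l)
      (fun x y => by
        funext i
        exact map_add (D i l) _ _)
      (fun x y => by
        funext i
        change D i l (x i * y i) = x i * D i l (y i) + y i * D i l (x i)
        rw [(D i l).leibniz, smul_eq_mul, smul_eq_mul])
      (fun a => by
        obtain ⟨c, rfl⟩ := hsurj a
        refine ⟨fun i => algebraMap ℂ (E i) (c i), hal c, ?_⟩
        funext i
        exact (D i l).map_algebraMap (c i))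
  choose D' hD'' using hder
  have hD' : ∀ l x, D' l (uMk E x) = uMk E fun i => D i l (x i) :=
    fun l x => (hD'' l _).trans (hd' l x)
  -- the subfield
  let B' : IntermediateField ℂ (UP E) :=
    { carrier := {y | ∃ x, uMk E x = y ∧ ∀ᶠ i in (hyperfilter ℕ : Filter ℕ), x i ∈ B i}
      mul_mem' := by
        rintro _ _ ⟨x, rfl, hx⟩ ⟨y, rfl, hy⟩
        refine ⟨x * y, map_mul _ _ _, ?_⟩
        filter_upwards [hx, hy] with i h1 h2
        rw [Pi.mul_apply]
        exact mul_mem h1 h2
      one_mem' := ⟨1, map_one _, Eventually.of_forall fun i => by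
        rw [Pi.one_apply]
        exact one_mem _⟩
      add_mem' := by
        rintro _ _ ⟨x, rfl, hx⟩ ⟨y, rfl, hy⟩
        refine ⟨x + y, map_add _ _ _, ?_⟩
        filter_upwards [hx, hy] with i h1 h2
        rw [Pi.add_apply]
        exact add_mem h1 h2
      zero_mem' := ⟨0, map_zero _, Eventually.of_forall fun i => by
        rw [Pi.zero_apply]
        exact zero_mem _⟩
      algebraMap_mem' := by
        intro a
        obtain ⟨c, rfl⟩ := hsurj a
        exact ⟨fun i => algebraMap ℂ (E i) (c i), hal c,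
          Eventually.of_forall fun i => (B i).algebraMap_mem _⟩
      inv_mem' := by
        rintro _ ⟨x, rfl, hx⟩
        refine ⟨fun i => (x i)⁻¹, ?_, ?_⟩
        · by_cases h0 : uMk E x = 0
          · rw [h0, inv_zero, uMk_eq_zero]
            rw [uMk_eq_zero] at h0
            filter_upwards [h0] with i hi
            rw [hi, inv_zero]
          · apply eq_inv_of_mul_eq_one_left
            rw [← map_mul, ← map_one (uMk E), uMk_eq]
            have h1 : ∀ᶠ i in (hyperfilter ℕ : Filter ℕ), x i ≠ 0 := by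
              rw [uMk_eq_zero] at h0
              exact Ultrafilter.eventually_not.2 h0
            filter_upwards [h1] with i hi
            rw [Pi.mul_apply, Pi.one_apply, inv_mul_cancel₀ hi]
        · filter_upwards [hx] with i hi
          exact inv_mem hi }
  have hB' : ∀ x, uMk E x ∈ B' ↔ ∀ᶠ i in (hyperfilter ℕ : Filter ℕ), x i ∈ B i := by
    intro x
    constructor
    · rintro ⟨x', h1, h2⟩
      rw [uMk_eq] at h1
      filter_upwards [h1, h2] with i h3 h4
      rw [← h3]
      exact h4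
    · intro h
      exact ⟨x, rfl, h⟩
  refine ⟨UP E, inferInstance, iA, D', B', uMk E, (ψ : UC →+* ℂ).comp (uMk fun _ => ℂ), ?_, hD',
    hB', hal, fun x => uMk_eq_zero, fun c => ?_, fun a => hsurj a, uMk_surj⟩
  · constructor
    · intro l y hy
      obtain ⟨y, rfl⟩ := uMk_surj y
      rw [hD', hB']
      rw [hB'] at hy
      filter_upwards [hy] with i hi
      exact (hB i).der l _ hi
    · intro y hy
      obtain ⟨y, rfl⟩ := uMk_surj y
      rw [hB']
      have h1 : ∀ᶠ i in (hyperfilter ℕ : Filter ℕ), ∀ l, D i l (y i) = 0 := by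
        rw [Filter.eventually_all]
        intro l
        have h2 := hy l
        rw [hD', uMk_eq_zero] at h2
        exact h2
      filter_upwards [h1] with i hi
      exact (hB i).const _ hi
  · rw [RingHom.comp_apply]
    change ψ (uMk (fun _ => ℂ) c) = 0 ↔ _
    rw [map_eq_zero_iff ψ ψ.injective, uMk_eq_zero]

end Pool.Agent.H436.UC
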