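import Pool.Agent.H436.UC.Defs

/-!
Ultraproducts of differential fields with subfields: transfer of the complexity (task T2, helper840).
-/

set_option autoImplicit false

namespace Pool.Agent.H436.UC

open Filter MvPolynomial

variable {g : ℕ} {E : ℕ → Type} [∀ i, Field (E i)] [∀ i, Algebra ℂ (E i)]
  {D : ∀ i, Fin g → Derivation ℂ (E i) (E i)} {B : ∀ i, IntermediateField ℂ (E i)}
  {E' : Type} [Field E'] [Algebra ℂ E'] {D' : Fin g → Derivation ℂ E' E'}
  {B' : IntermediateField ℂ E'} {π : (∀ i, E i) →+* E'}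

/-- T2. Transfer of the complexity. -/
theorem cx_ultra (hD' : ∀ l x, D' l (π x) = π fun i => D i l (x i))
    (hB' : ∀ x, π x ∈ B' ↔ ∀ᶠ i in (hyperfilter ℕ : Filter ℕ), x i ∈ B i)
    (hker : ∀ x, π x = 0 ↔ ∀ᶠ i in (hyperfilter ℕ : Filter ℕ), x i = 0) (k : ℕ) (x : ∀ i, E i)
    (hx : ∀ᶠ i in (hyperfilter ℕ : Filter ℕ), x i ∈ Cx (D i) (B i : Set (E i)) k) :
    π x ∈ Cx D' (B' : Set E') k := by
  classical
  have heq : ∀ u v : ∀ i, E i, (∀ᶠ i in (hyperfilter ℕ : Filter ℕ), u i = v i) → π u = π v := by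
    intro u v h
    rw [← sub_eq_zero, ← map_sub]
    refine (hker _).2 (h.mono fun i hi => ?_)
    rw [Pi.sub_apply, hi, sub_self]
  induction k generalizing x with
  | zero => exact (hB' x).2 hx
  | succ k ih =>
    have h1 : ∀ᶠ i in (hyperfilter ℕ : Filter ℕ), x i ∈ Cx (D i) (B i : Set (E i)) k ∨
        ((∃ a ∈ Cx (D i) (B i : Set (E i)) k, ∃ b ∈ Cx (D i) (B i : Set (E i)) k, x i = a + b) ∨
        ((∃ a ∈ Cx (D i) (B i : Set (E i)) k, ∃ b ∈ Cx (D i) (B i : Set (E i)) k, x i = a * b) ∨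
        ∃ (A : Fin g → Fin (k + 1) → Fin (k + 1) → E i) (y : Fin (k + 1) → E i),
          (∀ i' j l, A i' j l ∈ Cx (D i) (B i : Set (E i)) k) ∧
          (∀ i' j, D i i' (y j) = ∑ l, A i' j l * y l) ∧ ∃ j, x i = y j)) := hx
    rw [Ultrafilter.eventually_or, Ultrafilter.eventually_or, Ultrafilter.eventually_or] at h1
    rcases h1 with h1 | h1 | h1 | h1
    · exact Or.inl (ih x h1)
    · have h2 : ∀ i, ∃ a b : E i, (∃ a ∈ Cx (D i) (B i : Set (E i)) k,
          ∃ b ∈ Cx (D i) (B i : Set (E i)) k, x i = a + b) →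
          a ∈ Cx (D i) (B i : Set (E i)) k ∧ b ∈ Cx (D i) (B i : Set (E i)) k ∧ x i = a + b := by
        intro i
        by_cases h : ∃ a ∈ Cx (D i) (B i : Set (E i)) k,
          ∃ b ∈ Cx (D i) (B i : Set (E i)) k, x i = a + b
        · obtain ⟨a, ha, b, hb, he⟩ := h
          exact ⟨a, b, fun _ => ⟨ha, hb, he⟩⟩
        · exact ⟨0, 0, fun h' => absurd h' h⟩
      choose a b hab using h2
      refine Or.inr (Or.inl ⟨π a, ih a (h1.mono fun i hi => (hab i hi).1), π b,
        ih b (h1.mono fun i hi => (hab i hi).2.1), ?_⟩)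
      rw [← map_add]
      exact heq _ _ (h1.mono fun i hi => (hab i hi).2.2)
    · have h2 : ∀ i, ∃ a b : E i, (∃ a ∈ Cx (D i) (B i : Set (E i)) k,
          ∃ b ∈ Cx (D i) (B i : Set (E i)) k, x i = a * b) →
          a ∈ Cx (D i) (B i : Set (E i)) k ∧ b ∈ Cx (D i) (B i : Set (E i)) k ∧ x i = a * b := by
        intro i
        by_cases h : ∃ a ∈ Cx (D i) (B i : Set (E i)) k,
          ∃ b ∈ Cx (D i) (B i : Set (E i)) k, x i = a * b
        · obtain ⟨a, ha, b, hb, he⟩ := h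
          exact ⟨a, b, fun _ => ⟨ha, hb, he⟩⟩
        · exact ⟨0, 0, fun h' => absurd h' h⟩
      choose a b hab using h2
      refine Or.inr (Or.inr (Or.inl ⟨π a, ih a (h1.mono fun i hi => (hab i hi).1), π b,
        ih b (h1.mono fun i hi => (hab i hi).2.1), ?_⟩))
      rw [← map_mul]
      exact heq _ _ (h1.mono fun i hi => (hab i hi).2.2)
    · have h2 : ∀ i, ∃ (A : Fin g → Fin (k + 1) → Fin (k + 1) → E i) (y : Fin (k + 1) → E i),
          (∃ (A : Fin g → Fin (k + 1) → Fin (k + 1) → E i) (y : Fin (k + 1) → E i),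
            (∀ i' j l, A i' j l ∈ Cx (D i) (B i : Set (E i)) k) ∧
            (∀ i' j, D i i' (y j) = ∑ l, A i' j l * y l) ∧ ∃ j, x i = y j) →
          (∀ i' j l, A i' j l ∈ Cx (D i) (B i : Set (E i)) k) ∧
          (∀ i' j, D i i' (y j) = ∑ l, A i' j l * y l) ∧ ∃ j, x i = y j := by
        intro i
        by_cases h : ∃ (A : Fin g → Fin (k + 1) → Fin (k + 1) → E i) (y : Fin (k + 1) → E i),
            (∀ i' j l, A i' j l ∈ Cx (D i) (B i : Set (E i)) k) ∧
            (∀ i' j, D i i' (y j) = ∑ l, A i' j l * y l) ∧ ∃ j, x i = y j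
        · obtain ⟨A, y, h⟩ := h
          exact ⟨A, y, fun _ => h⟩
        · exact ⟨0, 0, fun h' => absurd h' h⟩
      choose A y hAy using h2
      have h3 : ∀ᶠ i in (hyperfilter ℕ : Filter ℕ),
          (∀ i' j l, A i i' j l ∈ Cx (D i) (B i : Set (E i)) k) ∧
          (∀ i' j, D i i' (y i j) = ∑ l, A i i' j l * y i l) ∧ ∃ j, x i = y i j :=
        h1.mono fun i hi => hAy i hi
      have h4 : ∃ j, ∀ᶠ i in (hyperfilter ℕ : Filter ℕ), x i = y i j := by
        by_contra hcon
        have h5 : ∀ j, ∀ᶠ i in (hyperfilter ℕ : Filter ℕ), ¬ x i = y i j := fun j => by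
          rw [Ultrafilter.eventually_not]
          exact fun h => hcon ⟨j, h⟩
        have h6 := eventually_all.2 h5
        obtain ⟨i, hi, hi'⟩ := (h3.and h6).exists
        obtain ⟨j, hj⟩ := hi.2.2
        exact hi' j hj
      obtain ⟨j₀, hj₀⟩ := h4
      refine Or.inr (Or.inr (Or.inr ⟨fun i' j l => π fun i => A i i' j l,
        fun j => π fun i => y i j, fun i' j l => ih _ (h3.mono fun i hi => hi.1 i' j l),
        fun i' j => ?_, j₀, heq _ _ hj₀⟩))
      rw [hD']
      have e : (∑ l, (π fun i => A i i' j l) * π fun i => y i l) =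
          π (∑ l, (fun i => A i i' j l) * fun i => y i l) := by
        rw [map_sum]
        exact Finset.sum_congr rfl fun l _ => (map_mul π _ _).symm
      rw [e]
      refine heq _ _ (h3.mono fun i hi => ?_)
      rw [Finset.sum_apply]
      exact hi.2.1 i' j

end Pool.Agent.H436.UC
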