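import Pool.Agent.H436.UC.Defs

/-!
UC-T3: transfer of algebraic elements from the ultraproduct (helper364).
-/

set_option autoImplicit false

namespace Pool.Agent.H436.UC

open Filter

section transfer

variable {g : ℕ} {E : ℕ → Type} [∀ i, Field (E i)] [∀ i, Algebra ℂ (E i)]
  {D : ∀ i, Fin g → Derivation ℂ (E i) (E i)} {B : ∀ i, IntermediateField ℂ (E i)}
  {E' : Type} [Field E'] [Algebra ℂ E'] {D' : Fin g → Derivation ℂ E' E'}
  {B' : IntermediateField ℂ E'} {π : (∀ i, E i) →+* E'}

/-- T3. Transfer of algebraic elements. -/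
theorem alg_ultra
    (hB' : ∀ x, π x ∈ B' ↔ ∀ᶠ i in (hyperfilter ℕ : Filter ℕ), x i ∈ B i)
    (hker : ∀ x, π x = 0 ↔ ∀ᶠ i in (hyperfilter ℕ : Filter ℕ), x i = 0)
    (hsurj : Function.Surjective π) {x y : ∀ i, E i}
    (hy : ∀ᶠ i in (hyperfilter ℕ : Filter ℕ), y i ≠ 0)
    (h : IsAlgebraic B' (π x / π y)) :
    ∃ M : ℕ, ∀ᶠ i in (hyperfilter ℕ : Filter ℕ), AlgLe (B i : Set (E i)) M (x i / y i) := by
  classical
  obtain ⟨P, hP0, hPe⟩ := h
  choose c hc using fun j : ℕ => hsurj ((P.coeff j : B') : E')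
  set m := P.natDegree with hm
  refine ⟨m, ?_⟩
  have h1 : ∀ j, ∀ᶠ i in (hyperfilter ℕ : Filter ℕ), c j i ∈ B i := by
    intro j
    rw [← hB', hc]
    exact (P.coeff j).2
  have h2 : ∀ᶠ i in (hyperfilter ℕ : Filter ℕ), c m i ≠ 0 := by
    rw [Ultrafilter.eventually_not, ← hker, hc]
    intro h0
    apply hP0
    rw [← Polynomial.leadingCoeff_eq_zero, Polynomial.leadingCoeff, ← hm]
    exact Subtype.ext h0
  have hy0 : π y ≠ 0 := by
    intro h0
    rw [hker] at h0
    obtain ⟨i, hi1, hi2⟩ := (hy.and h0).exists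
    exact hi1 hi2
  have h3 : ∀ᶠ i in (hyperfilter ℕ : Filter ℕ),
      ∑ j ∈ Finset.range (m + 1), c j i * x i ^ j * y i ^ (m - j) = 0 := by
    have h4 : π (∑ j ∈ Finset.range (m + 1), c j * x ^ j * y ^ (m - j)) = 0 := by
      rw [map_sum]
      have h5 : ∀ j ∈ Finset.range (m + 1), π (c j * x ^ j * y ^ (m - j)) =
          π y ^ m * (((P.coeff j : B') : E') * (π x / π y) ^ j) := by
        intro j hj
        have hj' : j ≤ m := by
          have := Finset.mem_range.1 hj
          omega
        rw [map_mul, map_mul, map_pow, map_pow, hc, div_pow]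
        have e : π y ^ m = π y ^ (m - j) * π y ^ j := by
          rw [← pow_add]
          congr 1
          omega
        rw [e]
        field_simp
      rw [Finset.sum_congr rfl h5, ← Finset.mul_sum]
      have h6 : ∑ j ∈ Finset.range (m + 1), ((P.coeff j : B') : E') * (π x / π y) ^ j =
          Polynomial.aeval (π x / π y) P := by
        rw [Polynomial.aeval_eq_sum_range]
        refine Finset.sum_congr rfl fun j _ => ?_
        rw [Algebra.smul_def]
        rfl
      rw [h6, hPe, mul_zero]
    rw [hker] at h4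
    filter_upwards [h4] with i hi
    rw [Finset.sum_apply] at hi
    exact hi
  have h1' : ∀ᶠ i in (hyperfilter ℕ : Filter ℕ), ∀ j ∈ Finset.range (m + 1), c j i ∈ B i :=
    (Filter.eventually_all_finset _).2 fun j _ => h1 j
  filter_upwards [h1', h2, h3, hy] with i i1 i2 i3 i4
  have hco : ∀ k, (∑ j ∈ Finset.range (m + 1), Polynomial.C (c j i) * Polynomial.X ^ j).coeff k =
      if k ∈ Finset.range (m + 1) then c k i else 0 := by
    intro k
    rw [Polynomial.finsetSum_coeff]
    simp_rw [Polynomial.coeff_C_mul_X_pow]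
    rw [Finset.sum_ite_eq]
  refine ⟨∑ j ∈ Finset.range (m + 1), Polynomial.C (c j i) * Polynomial.X ^ j, ?_, ?_, ?_, ?_⟩
  · intro h0
    have := hco m
    rw [h0, Polynomial.coeff_zero, if_pos (Finset.mem_range.2 (Nat.lt_succ_self m))] at this
    exact i2 this.symm
  · rw [Polynomial.natDegree_le_iff_coeff_eq_zero]
    intro k hk
    rw [hco, if_neg]
    rw [Finset.mem_range]
    omega
  · intro k
    rw [hco]
    split_ifs with hk
    · exact i1 k hk
    · exact (B i).zero_mem
  · rw [Polynomial.eval_finsetSum]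
    simp_rw [Polynomial.eval_mul, Polynomial.eval_C, Polynomial.eval_pow, Polynomial.eval_X]
    have h7 : y i ^ m * ∑ j ∈ Finset.range (m + 1), c j i * (x i / y i) ^ j = 0 := by
      rw [← i3, Finset.mul_sum]
      refine Finset.sum_congr rfl fun j hj => ?_
      have hj' : j ≤ m := by
        have := Finset.mem_range.1 hj
        omega
      have e : y i ^ m = y i ^ (m - j) * y i ^ j := by
        rw [← pow_add]
        congr 1
        omega
      rw [e, div_pow]
      field_simp
    exact (mul_eq_zero.1 h7).resolve_left (pow_ne_zero _ i4)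

end transfer

end Pool.Agent.H436.UC

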