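import Mathlib

set_option autoImplicit false

namespace Pool.Agent.H436.UC

open MvPolynomial

/-- T4. Points of the locus of `x` over `ℂ` where a given form does not vanish. -/
theorem exists_point {E : Type} [Field E] [Algebra ℂ E] {n : ℕ} (x : Fin (n + 1) → E)
    (G : MvPolynomial (Fin (n + 1)) ℂ) (hG : aeval x G ≠ 0) :
    ∃ y : Fin (n + 1) → ℂ, eval y G ≠ 0 ∧
      ∀ H : MvPolynomial (Fin (n + 1)) ℂ, (∃ e, H.IsHomogeneous e) → aeval x H = 0 →
        eval y H = 0 := by
  by_contra hcon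
  push Not at hcon
  set J : Ideal (MvPolynomial (Fin (n + 1)) ℂ) :=
    Ideal.span {H | (∃ e, H.IsHomogeneous e) ∧ aeval x H = 0} with hJ
  have hJk : J ≤ RingHom.ker (aeval (R := ℂ) x) := by
    rw [hJ, Ideal.span_le]
    rintro H ⟨-, hH⟩
    exact hH
  have hGv : G ∈ vanishingIdeal ℂ (zeroLocus ℂ J) := by
    rw [mem_vanishingIdeal_iff]
    intro y hy
    rw [mem_zeroLocus_iff] at hy
    by_contra hne
    have hne' : eval y G ≠ 0 := by
      intro h0
      apply hne
      rw [← h0]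
      rfl
    obtain ⟨H, he, hH, hH'⟩ := hcon y hne'
    apply hH'
    have h1 := hy H (Ideal.subset_span ⟨he, hH⟩)
    rw [← h1]
    rfl
  rw [vanishingIdeal_zeroLocus_eq_radical] at hGv
  obtain ⟨m, hm⟩ := hGv
  have h2 : aeval x (G ^ m) = 0 := hJk hm
  rw [map_pow] at h2

  exact hG (by
    by_contra hne
    exact pow_ne_zero m hne h2)

end Pool.Agent.H436.UC
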