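import Pool.Agent.H436.DT.Main
import Pool.Agent.H436.UC.T1
import Pool.Agent.H436.UC.T2
import Pool.Agent.H436.UC.T3
import Pool.Agent.H436.UC.T4
import Pool.Graph.R_pool_sql_team_seeded_2aa45f1a.Q1.SL.Key
import Pool.Graph.R_pool_sql_team_seeded_2aa45f1a.Q171.RC.GenHyp

/-!
Points over differential fields of bounded complexity: uniform bounds.
-/

set_option autoImplicit false

namespace Pool.Agent.H436.UC

open Filter MvPolynomial Pool.Agent.Q1.SL
open Pool.Agent.H436.DT (DField IterL coreL)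
open Pool.Agent.Q171.RC (OnRat NC)

theorem iterL_of_cx {E : Type} [Field E] [Algebra ℂ E] {g : ℕ} {D : Fin g → Derivation ℂ E E}
    {B : IntermediateField ℂ E} (k : ℕ) : ∀ x ∈ Cx D (B : Set E) k, IterL D B x := by
  induction k with
  | zero => exact fun x hx => IterL.base hx
  | succ k ih =>
    rintro x (hx | ⟨a, ha, b, hb, rfl⟩ | ⟨a, ha, b, hb, rfl⟩ | ⟨A, y, hA, hy, j, rfl⟩)
    · exact ih x hx
    · exact (ih a ha).add (ih b hb)
    · exact (ih a ha).mul (ih b hb)
    · exact IterL.ode A y (fun i j l => ih _ (hA i j l)) hy j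

theorem AlgLe.mono {E : Type} [Field E] {B : Set E} {M M' : ℕ} {y : E} (h : AlgLe B M y)
    (hM : M ≤ M') : AlgLe B M' y := by
  obtain ⟨P, h1, h2, h3, h4⟩ := h
  exact ⟨P, h1, h2.trans hM, h3, h4⟩

theorem algLe_zero {E : Type} [Field E] [Algebra ℂ E] (B : IntermediateField ℂ E) :
    AlgLe (B : Set E) 1 0 := by
  refine ⟨Polynomial.X, Polynomial.X_ne_zero, Polynomial.natDegree_X_le, fun i => ?_, by simp⟩
  rw [Polynomial.coeff_X]
  split_ifs
  · exact B.one_mem
  · exact B.zero_mem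

/-- **Uniform bounds.** -/
theorem uniform (n D g k : ℕ) : ∃ M : ℕ,
    ∀ (S : Set (MvPolynomial (Fin (n + 1)) ℂ)) (G : MvPolynomial (Fin (n + 1)) ℂ),
      (∀ F ∈ S, ∃ e, e ≤ D ∧ F.IsHomogeneous e) → (∃ e, e ≤ D ∧ G.IsHomogeneous e) →
      (∀ p : Fin (n + 1) → Polynomial ℂ, (∀ j, (p j).natDegree ≤ M) → (∀ F ∈ S, aeval p F = 0) →
        NonC p → aeval p G = 0) →
      ∀ (E : Type) [Field E] [Algebra ℂ E] (δ : Fin g → Derivation ℂ E E)
        (B : IntermediateField ℂ E), DField δ B →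
        ∀ x : Fin (n + 1) → E, (∀ j, x j ∈ Cx δ (B : Set E) k) → (∀ F ∈ S, aeval x F = 0) →
          aeval x G = 0 ∨ ∀ u v, AlgLe (B : Set E) M (x u / x v) := by
  classical
  by_contra hcon
  have hC : ∀ d : ℕ, ∃ (S : Set (MvPolynomial (Fin (n + 1)) ℂ))
      (G : MvPolynomial (Fin (n + 1)) ℂ) (K : Type) (_ : Field K) (_ : Algebra ℂ K)
      (D1 : Fin g → Derivation ℂ K K) (B : IntermediateField ℂ K) (x : Fin (n + 1) → K),
      (∀ F ∈ S, ∃ e, e ≤ D ∧ F.IsHomogeneous e) ∧ (∃ e, e ≤ D ∧ G.IsHomogeneous e) ∧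
      (∀ p : Fin (n + 1) → Polynomial ℂ, (∀ j, (p j).natDegree ≤ d) → (∀ F ∈ S, aeval p F = 0) →
        NonC p → aeval p G = 0) ∧ DField D1 B ∧ (∀ j, x j ∈ Cx D1 (B : Set K) k) ∧
        (∀ F ∈ S, aeval x F = 0) ∧ aeval x G ≠ 0 ∧
        ¬ ∀ u v, AlgLe (B : Set K) d (x u / x v) := by
    intro d
    by_contra h1
    refine hcon ⟨d, ?_⟩
    intro S G h2 h3 h4 K _ _ D1 B h5 x h6 h7
    by_contra h9
    rw [not_or] at h9
    exact h1 ⟨S, G, K, _, _, D1, B, x, h2, h3, h4, h5, h6, h7, h9.1, h9.2⟩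
  choose S G K iK jK D1 B x hS hG hrat hB hx hF hGne hna using hC
  obtain ⟨K', iK', jK', D', B', π, θ, hDF, hD', hB', hal, hker, hk, hs, hπ⟩ := exists_ultraG D1 B hB
  let x' : Fin (n + 1) → K' := fun j => π fun i => x i j
  have hx' : ∀ j, x' j ∈ Cx D' (B' : Set K') k := fun j =>
    cx_ultra hD' hB' hker k _ (Eventually.of_forall fun i => hx i j)
  have hge : ∀ d0 : ℕ, ∀ᶠ i in (hyperfilter ℕ : Filter ℕ), d0 ≤ i := by
    intro d0
    have h1 : ∀ᶠ i : ℕ in cofinite, d0 ≤ i := by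
      rw [Nat.cofinite_eq_atTop]
      exact eventually_ge_atTop d0
    exact h1.filter_mono hyperfilter_le_cofinite
  by_cases hall : ∀ u v, IsAlgebraic B' (x' u / x' v)
  · -- all ratios are algebraic
    have h1 : ∀ u v, ∃ M : ℕ, ∀ᶠ i in (hyperfilter ℕ : Filter ℕ),
        AlgLe (B i : Set (K i)) M (x i u / x i v) := by
      intro u v
      by_cases h0 : ∀ᶠ i in (hyperfilter ℕ : Filter ℕ), x i v = 0
      · refine ⟨1, ?_⟩
        filter_upwards [h0] with i hi
        rw [hi, div_zero]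
        exact algLe_zero (B i)
      · exact alg_ultra hB' hker hπ (Ultrafilter.eventually_not.2 h0) (hall u v)
    choose M hM using h1
    have h2 : ∀ᶠ i in (hyperfilter ℕ : Filter ℕ), ∀ u v,
        AlgLe (B i : Set (K i)) (M u v) (x i u / x i v) := by
      rw [eventually_all]
      intro u
      rw [eventually_all]
      exact fun v => hM u v
    let N : ℕ := Finset.univ.sup fun u => Finset.univ.sup fun v => M u v
    obtain ⟨i, h3, h4⟩ := (h2.and (hge N)).exists
    refine hna i fun u v => (h3 u v).mono (le_trans ?_ h4)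
    exact (Finset.le_sup (f := fun v => M u v) (Finset.mem_univ v)).trans
      (Finset.le_sup (f := fun u => Finset.univ.sup fun v => M u v) (Finset.mem_univ u))
  · push Not at hall
    obtain ⟨u, v, huv⟩ := hall
    have hv : x' v ≠ 0 := by
      intro h0
      apply huv
      rw [h0, div_zero]
      exact isAlgebraic_zero
    have hev : ∀ (T : Finset (Fin (n + 1) →₀ ℕ)) (F : ℕ → MvPolynomial (Fin (n + 1)) ℂ),
        (∀ᶠ i in (hyperfilter ℕ : Filter ℕ), (F i).support ⊆ T) →
          aeval x' (limT θ T F) = π fun i => aeval (x i) (F i) := fun T F hF =>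
      aeval_limT hal hker hF x
    -- the limit system
    let S' : Set (MvPolynomial (Fin (n + 1)) ℂ) :=
      {H | ∃ F : ℕ → MvPolynomial (Fin (n + 1)) ℂ,
        (∀ᶠ i in (hyperfilter ℕ : Filter ℕ), F i ∈ S i) ∧ H = limT θ (TD (n + 1) D) F}
    obtain ⟨S0, hS0, hS0'⟩ := exists_finite_forms S'
    have hS'hom : ∀ H ∈ S', ∃ e, H.IsHomogeneous e := by
      rintro _ ⟨F, hF', rfl⟩
      obtain ⟨e', he', hhe⟩ := exists_deg (D := D) (by
        filter_upwards [hF'] with i hi
        exact hS i _ hi)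
      exact ⟨e', limT_homog hk hhe⟩
    have hS'x : ∀ H ∈ S', aeval x' H = 0 := by
      rintro _ ⟨F, hF', rfl⟩
      obtain ⟨e', he', hhe⟩ := exists_deg (D := D) (by
        filter_upwards [hF'] with i hi
        exact hS i _ hi)
      rw [hev _ F (by
        filter_upwards [hhe] with i hi
        exact support_hom hi he'), hker]
      filter_upwards [hF'] with i hi
      exact hF i _ hi
    obtain ⟨N, hN⟩ := coreL (K := ℂ) hDF (fun j => iterL_of_cx k _ (hx' j)) (u := u) (v := v) hv huv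
      S0 (fun H hH => hS'hom H (hS0 H hH)) fun H hH => hS'x H (hS0 H hH)
    -- the point
    obtain ⟨e', he', hhe⟩ := exists_deg (F := G) (D := D) (Eventually.of_forall hG)
    let G' := limT θ (TD (n + 1) e') G
    have hGT : ∀ᶠ i in (hyperfilter ℕ : Filter ℕ), (G i).support ⊆ TD (n + 1) e' := by
      filter_upwards [hhe] with i hi
      exact support_hom hi le_rfl
    have hG' : aeval x' G' ≠ 0 := by
      intro h0
      rw [hev _ G hGT, hker] at h0
      obtain ⟨i, hi⟩ := h0.exists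
      exact hGne i hi
    obtain ⟨y, hy1, hy2⟩ := exists_point x' (G' * X v) (by
      rw [map_mul, aeval_X]
      exact mul_ne_zero hG' hv)
    rw [map_mul, eval_X] at hy1
    obtain ⟨p, hp1, hp2, hp3, hp4⟩ := hN y (fun h0 => (right_ne_zero_of_mul hy1) (by
      rw [h0]
      rfl)) hy2
    have hpG : aeval p G' ≠ 0 := by
      intro h0
      apply left_ne_zero_of_mul hy1
      have h1 := poly_eval p G' 0
      rw [h0, Polynomial.eval_zero] at h1
      rw [h1]
      congr 1
      exact congrArg _ (funext fun j => (hp4 j).symm)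
    have h1 := los_curve hs hk p hp2 hp1 (S := S) (T := TD (n + 1) D) (fun i F hF => by
      obtain ⟨e, he, hhe⟩ := hS i F hF
      exact support_hom hhe he) (fun F hF' => hS0' _ p (fun H hH => hp3 H hH) _ ⟨F, hF', rfl⟩)
      hGT hpG
    obtain ⟨i, ⟨q, hq1, hq2, hq3, hq4, -⟩, hi⟩ := (h1.and (hge N)).exists
    exact hq4 (hrat i q (fun j => (hq1 j).trans hi) hq2 hq3)

end Pool.Agent.H436.UC
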